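import Pool.Agent.P8H81.LP.Defs

/-! Project LP (helper81), task SUM (helper75): sums of the correlation over boxes. -/

set_option autoImplicit false

open Filter
open Finset hiding box

namespace Pool.Agent.P8H75.LP

open Pool.Agent.P8H81.LP (box TaskSum)

/-- comparison of powers of comparable numbers -/
theorem rpow_comp {u v : ℝ} (a : ℝ) (hu : 0 < u) (h1 : u / 2 ≤ v) (h2 : v ≤ 2 * u) :
    v ^ a ≤ 2 ^ |a| * u ^ a := by
  have hv : 0 < v := by linarith
  rcases le_total 0 a with ha | ha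
  · rw [abs_of_nonneg ha, ← Real.mul_rpow (by norm_num) hu.le]
    exact Real.rpow_le_rpow hv.le h2 ha
  · rw [abs_of_nonpos ha]
    have h3 : v ^ a ≤ (u / 2) ^ a := Real.rpow_le_rpow_of_nonpos (by linarith) h1 ha
    refine h3.trans (le_of_eq ?_)
    rw [Real.div_rpow hu.le (by norm_num), Real.rpow_neg (by norm_num), div_eq_mul_inv, mul_comm]

/-- a lower bound for the difference of two powers -/
theorem rpow_diff {u v a : ℝ} (ha : -1 < a) (hu : 0 < u) (huv : u ≤ v) (h2 : v ≤ 2 * u) :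
    (a + 1) * (v ^ a * (v - u)) ≤ 2 ^ |a| * (v ^ (a + 1) - u ^ (a + 1)) := by
  have hv : 0 < v := by linarith
  have hs : 0 < a + 1 := by linarith
  rcases le_total 0 a with ha0 | ha0
  · -- convex case
    have h3 : 1 + (a + 1) * (v / u - 1) ≤ (1 + (v / u - 1)) ^ (a + 1) :=
      one_add_mul_self_le_rpow_one_add (by
        have : 0 < v / u := by positivity
        linarith) (by linarith)
    rw [add_sub_cancel, Real.div_rpow hv.le hu.le, le_div_iff₀ (by positivity)] at h3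
    have h4 : u ^ (a + 1) = u ^ a * u := by rw [Real.rpow_add hu, Real.rpow_one]
    have h5 : (1 + (a + 1) * (v / u - 1)) * u ^ (a + 1) =
        u ^ (a + 1) + (a + 1) * (u ^ a * (v - u)) := by
      rw [h4]
      field_simp
    rw [h5] at h3
    have h6 : v ^ a ≤ 2 ^ |a| * u ^ a := rpow_comp a hu (by linarith) h2
    have h7 : (a + 1) * (v ^ a * (v - u)) ≤ 2 ^ |a| * ((a + 1) * (u ^ a * (v - u))) := by
      have : v ^ a * (v - u) ≤ 2 ^ |a| * u ^ a * (v - u) :=
        mul_le_mul_of_nonneg_right h6 (by linarith)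
      calc (a + 1) * (v ^ a * (v - u)) ≤ (a + 1) * (2 ^ |a| * u ^ a * (v - u)) :=
            mul_le_mul_of_nonneg_left this hs.le
        _ = _ := by ring
    refine h7.trans (mul_le_mul_of_nonneg_left ?_ (by positivity))
    linarith
  · -- concave case
    have h3 : (1 + (u / v - 1)) ^ (a + 1) ≤ 1 + (a + 1) * (u / v - 1) :=
      rpow_one_add_le_one_add_mul_self (by
        have : 0 < u / v := by positivity
        linarith) hs.le (by linarith)
    rw [add_sub_cancel, Real.div_rpow hu.le hv.le, div_le_iff₀ (by positivity)] at h3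
    have h4 : v ^ (a + 1) = v ^ a * v := by rw [Real.rpow_add hv, Real.rpow_one]
    have h5 : (1 + (a + 1) * (u / v - 1)) * v ^ (a + 1) =
        v ^ (a + 1) - (a + 1) * (v ^ a * (v - u)) := by
      rw [h4]
      field_simp
      ring
    rw [h5] at h3
    have h6 : (1 : ℝ) ≤ 2 ^ |a| := Real.one_le_rpow (by norm_num) (abs_nonneg a)
    have h7 : 0 ≤ (a + 1) * (v ^ a * (v - u)) :=
      mul_nonneg hs.le (mul_nonneg (by positivity) (by linarith))
    nlinarith

/-- the radius for the maximum norm -/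
def rad (x : Fin 2 → ℤ) : ℕ := max (x 0).natAbs (x 1).natAbs

theorem mem_box {x : Fin 2 → ℤ} {R : ℕ} : x ∈ box R ↔ rad x ≤ R := by
  unfold box rad
  rw [Fintype.mem_piFinset, Fin.forall_fin_two, mem_Icc, mem_Icc, max_le_iff]
  omega

theorem card_box (R : ℕ) : (box R).card = (2 * R + 1) ^ 2 := by
  unfold box
  rw [Fintype.card_piFinset, Fin.prod_univ_two, Int.card_Icc]
  have : ((R : ℤ) + 1 - -(R : ℤ)).toNat = 2 * R + 1 := by omega
  rw [this]
  ring

theorem box_zero : box 0 = {0} := by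
  ext x
  rw [mem_box, mem_singleton]
  unfold rad
  constructor
  · intro h
    funext i
    fin_cases i
    · simp only [Fin.zero_eta, Pi.zero_apply]; omega
    · simp only [Fin.mk_one, Pi.zero_apply]; omega
  · intro h
    subst h
    simp

theorem log_two_add {r : ℕ} (hr : 1 ≤ r) : 1 ≤ Real.log (2 + r) := by
  have h1 : (1 : ℝ) ≤ r := by exact_mod_cast hr
  rw [Real.le_log_iff_exp_le (by linarith)]
  have := Real.exp_one_lt_d9
  linarith

theorem log_pos' (r : ℕ) : 0 < Real.log (2 + r) := by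
  apply Real.log_pos
  have : (0 : ℝ) ≤ r := Nat.cast_nonneg r
  linarith

theorem quad (x : Fin 2 → ℤ) : ((rad x : ℝ)) ^ 2 ≤ (x 0 : ℝ) ^ 2 + (x 1 : ℝ) ^ 2 ∧
    (x 0 : ℝ) ^ 2 + (x 1 : ℝ) ^ 2 ≤ 2 * (rad x : ℝ) ^ 2 := by
  have e0 : (x 0 : ℝ) ^ 2 = (((x 0).natAbs : ℕ) : ℝ) ^ 2 := by
    rw [Nat.cast_natAbs, Int.cast_abs, sq_abs]
  have e1 : (x 1 : ℝ) ^ 2 = (((x 1).natAbs : ℕ) : ℝ) ^ 2 := by
    rw [Nat.cast_natAbs, Int.cast_abs, sq_abs]
  rw [e0, e1]
  unfold rad
  rcases le_total (x 0).natAbs (x 1).natAbs with h | h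
  · rw [max_eq_right h]
    have h' : (((x 0).natAbs : ℕ) : ℝ) ≤ (((x 1).natAbs : ℕ) : ℝ) := by exact_mod_cast h
    have h0 : (0 : ℝ) ≤ (((x 0).natAbs : ℕ) : ℝ) := Nat.cast_nonneg _
    constructor <;> nlinarith
  · rw [max_eq_left h]
    have h' : (((x 1).natAbs : ℕ) : ℝ) ≤ (((x 0).natAbs : ℕ) : ℝ) := by exact_mod_cast h
    have h0 : (0 : ℝ) ≤ (((x 1).natAbs : ℕ) : ℝ) := Nat.cast_nonneg _
    constructor <;> nlinarith

/-- the pointwise bound outside a finite set -/
theorem point {a : ℝ} {hc : (Fin 2 → ℤ) → ℝ} (h0 : ∀ x, 0 ≤ hc x) {x : Fin 2 → ℤ}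
    (hr : 3 ≤ rad x) (h : hc x * ((x 0 : ℝ) ^ 2 + (x 1 : ℝ) ^ 2) /
      (Real.log (√((x 0 : ℝ) ^ 2 + (x 1 : ℝ) ^ 2))) ^ a < 2) :
    hc x * (rad x : ℝ) ^ 2 / Real.log (2 + rad x) ^ a ≤ 2 * 2 ^ |a| := by
  obtain ⟨q1, q2⟩ := quad x
  set q : ℝ := (x 0 : ℝ) ^ 2 + (x 1 : ℝ) ^ 2 with hq
  set r : ℝ := (rad x : ℝ) with hrd
  have hr3 : (3 : ℝ) ≤ r := by
    rw [hrd]
    exact_mod_cast hr
  have hr0 : 0 < r := by linarith
  have hs1 : r ≤ √q := Real.le_sqrt_of_sq_le q1
  have hL := log_pos' (rad x)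
  rw [← hrd] at hL
  have hl1 : Real.log (2 + r) / 2 ≤ Real.log (√q) := by
    have h1 : Real.log (2 + r) ≤ Real.log (r ^ 2) := Real.log_le_log (by linarith) (by nlinarith)
    rw [Real.log_pow] at h1
    have h2 : Real.log r ≤ Real.log (√q) := Real.log_le_log hr0 hs1
    push_cast at h1
    linarith
  have hl2 : Real.log (√q) ≤ 2 * Real.log (2 + r) := by
    have h1 : √q ≤ (2 + r) ^ 2 := by
      rw [Real.sqrt_le_left (by positivity)]
      nlinarith [sq_nonneg r, mul_pos hr0 hr0, pow_pos hr0 3, pow_pos hr0 4]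
    have h2 := Real.log_le_log (by linarith) h1
    rw [Real.log_pow] at h2
    push_cast at h2
    linarith
  have hl0 : 0 < Real.log (√q) := by linarith
  have hp : 0 < Real.log (√q) ^ a := Real.rpow_pos_of_pos hl0 a
  rw [div_lt_iff₀ hp] at h
  have h1 := rpow_comp a hL hl1 hl2
  rw [div_le_iff₀ (Real.rpow_pos_of_pos hL a)]
  calc hc x * r ^ 2 ≤ hc x * q := mul_le_mul_of_nonneg_left q1 (h0 x)
    _ ≤ 2 * Real.log (√q) ^ a := h.le
    _ ≤ 2 * (2 ^ |a| * Real.log (2 + r) ^ a) := mul_le_mul_of_nonneg_left h1 (by norm_num)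
    _ = _ := by ring

theorem taskSum : TaskSum := by
  classical
  intro a ha hc h0 hlim
  -- the uniform bound
  have hev : ∀ᶠ x : Fin 2 → ℤ in cofinite,
      hc x * (rad x : ℝ) ^ 2 / Real.log (2 + rad x) ^ a ≤ 2 * 2 ^ |a| := by
    have h1 : ∀ᶠ x : Fin 2 → ℤ in cofinite, 3 ≤ rad x := by
      rw [eventually_cofinite]
      refine (box 2).finite_toSet.subset fun x hx => ?_
      rw [mem_coe, mem_box]
      have : ¬ 3 ≤ rad x := hx
      omega
    have h2 := hlim.eventually_lt_const (show (1 : ℝ) < 2 by norm_num)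
    filter_upwards [h1, h2] with x hx1 hx2
    exact point h0 hx1 hx2
  obtain ⟨C2, hC20, hC2⟩ : ∃ C2 : ℝ, 0 < C2 ∧ ∀ x,
      hc x * (rad x : ℝ) ^ 2 / Real.log (2 + rad x) ^ a ≤ C2 := by
    rw [eventually_cofinite] at hev
    set F := hev.toFinset with hF
    have hnn : ∀ x, 0 ≤ hc x * (rad x : ℝ) ^ 2 / Real.log (2 + rad x) ^ a := fun x =>
      div_nonneg (mul_nonneg (h0 x) (by positivity)) (Real.rpow_pos_of_pos (log_pos' _) a).le
    refine ⟨2 * 2 ^ |a| + ∑ x ∈ F, hc x * (rad x : ℝ) ^ 2 / Real.log (2 + rad x) ^ a, ?_, ?_⟩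
    · have : 0 ≤ ∑ x ∈ F, hc x * (rad x : ℝ) ^ 2 / Real.log (2 + rad x) ^ a :=
        sum_nonneg fun x _ => hnn x
      have : (0 : ℝ) < 2 ^ |a| := by positivity
      linarith
    · intro x
      by_cases hx : x ∈ F
      · have h1 := single_le_sum (f := fun x => hc x * (rad x : ℝ) ^ 2 / Real.log (2 + rad x) ^ a)
          (fun x _ => hnn x) hx
        have : (0 : ℝ) < 2 ^ |a| := by positivity
        linarith
      · have h1 : hc x * (rad x : ℝ) ^ 2 / Real.log (2 + rad x) ^ a ≤ 2 * 2 ^ |a| := by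
          by_contra hcon
          exact hx (by rw [hF, Set.Finite.mem_toFinset]; exact hcon)
        have : 0 ≤ ∑ x ∈ F, hc x * (rad x : ℝ) ^ 2 / Real.log (2 + rad x) ^ a :=
          sum_nonneg fun x _ => hnn x
        linarith
  have hpt : ∀ x, 1 ≤ rad x → hc x ≤ C2 * (Real.log (2 + rad x) ^ a / (rad x : ℝ) ^ 2) := by
    intro x hx
    have hx0 : (0 : ℝ) < rad x := by exact_mod_cast hx
    have h1 := hC2 x
    rw [div_le_iff₀ (Real.rpow_pos_of_pos (log_pos' _) a)] at h1
    rw [← mul_div_assoc, le_div_iff₀ (by positivity)]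
    exact h1
  -- the bound by the inverse of the radius
  obtain ⟨p, hp⟩ : ∃ p : ℝ, p = |a| + 1 := ⟨_, rfl⟩
  have hp0 : 0 < p := by rw [hp]; positivity
  have hinv : ∀ x, 1 ≤ rad x → hc x ≤ 3 * C2 * p ^ p / rad x := by
    intro x hx
    refine (hpt x hx).trans ?_
    have hx0 : (1 : ℝ) ≤ rad x := by exact_mod_cast hx
    have hL := log_two_add hx
    have h1 : Real.log (2 + rad x) ^ a ≤ p ^ p * (2 + rad x) := by
      have h2 : Real.log (2 + rad x) ^ a ≤ Real.log (2 + rad x) ^ p :=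
        Real.rpow_le_rpow_of_exponent_le hL (by rw [hp]; linarith [le_abs_self a])
      have h3 : Real.log (2 + (rad x : ℝ)) ≤ p * (2 + (rad x : ℝ)) ^ (1 / p) := by
        have := Real.log_le_rpow_div (show (0 : ℝ) ≤ 2 + (rad x : ℝ) by linarith)
          (show 0 < 1 / p by positivity)
        refine this.trans (le_of_eq ?_)
        field_simp
      have h4 : Real.log (2 + (rad x : ℝ)) ^ p ≤ (p * (2 + (rad x : ℝ)) ^ (1 / p)) ^ p :=
        Real.rpow_le_rpow (by linarith) h3 hp0.le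
      rw [Real.mul_rpow hp0.le (by positivity), ← Real.rpow_mul (by linarith), one_div_mul_cancel
        hp0.ne', Real.rpow_one] at h4
      exact h2.trans h4
    have hpp : 0 < p ^ p := Real.rpow_pos_of_pos hp0 p
    rw [← mul_div_assoc, div_le_div_iff₀ (by positivity) (by positivity)]
    have h5 : Real.log (2 + rad x) ^ a ≤ p ^ p * (3 * rad x) := by
      refine h1.trans (mul_le_mul_of_nonneg_left (by linarith) hpp.le)
    calc C2 * Real.log (2 + rad x) ^ a * rad x ≤ C2 * (p ^ p * (3 * rad x)) * rad x := by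
          gcongr
      _ = _ := by ring
  -- the sums
  have hs : 0 < a + 1 := by linarith
  obtain ⟨C3, hC3⟩ : ∃ C3 : ℝ, C3 = 3 * 2 ^ |a| / (a + 1) := ⟨_, rfl⟩
  have hC30 : 0 < C3 := by rw [hC3]; positivity
  have hsum : ∀ R : ℕ, ∑ y ∈ box R, hc y ≤ hc 0 +
      8 * C2 * C3 * (Real.log (2 + R) ^ (a + 1) - Real.log 2 ^ (a + 1)) := by
    intro R
    induction R with
    | zero =>
      rw [box_zero, sum_singleton]
      simp
    | succ R ih =>
      have hsub : box R ⊆ box (R + 1) := fun x hx => by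
        rw [mem_box] at hx ⊢
        omega
      rw [← sum_sdiff hsub]
      have hR0 : (0 : ℝ) ≤ R := Nat.cast_nonneg R
      have hcard : ((box (R + 1) \ box R).card : ℝ) = 8 * (R + 1) := by
        rw [card_sdiff_of_subset hsub, card_box, card_box]
        have : (2 * (R + 1) + 1) ^ 2 - (2 * R + 1) ^ 2 = 8 * (R + 1) := by
          have : (2 * (R + 1) + 1) ^ 2 = (2 * R + 1) ^ 2 + 8 * (R + 1) := by ring
          omega
        rw [this]
        push_cast
        ring
      have hring : ∑ y ∈ box (R + 1) \ box R, hc y ≤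
          8 * (R + 1) * (C2 * (Real.log (2 + (R + 1 : ℕ)) ^ a / ((R + 1 : ℕ) : ℝ) ^ 2)) := by
        rw [← hcard, ← nsmul_eq_mul, ← sum_const]
        refine sum_le_sum fun y hy => ?_
        rw [Finset.mem_sdiff, mem_box, mem_box] at hy
        have hy' : rad y = R + 1 := by omega
        have := hpt y (by omega)
        rwa [hy'] at this
      -- the telescoping estimate
      have hu : 0 < Real.log (2 + (R : ℝ)) := log_pos' R
      have huv : Real.log (2 + (R : ℝ)) ≤ Real.log (2 + ((R + 1 : ℕ) : ℝ)) :=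
        Real.log_le_log (by linarith) (by push_cast; linarith)
      have hv2 : Real.log (2 + ((R + 1 : ℕ) : ℝ)) ≤ 2 * Real.log (2 + (R : ℝ)) := by
        have h1 : Real.log (2 + ((R + 1 : ℕ) : ℝ)) ≤ Real.log ((2 + (R : ℝ)) ^ 2) :=
          Real.log_le_log (by positivity) (by push_cast; nlinarith)
        rw [Real.log_pow] at h1
        exact_mod_cast h1
      have hdiff := rpow_diff ha hu huv hv2
      have hinc : 1 / (3 * ((R : ℝ) + 1)) ≤
          Real.log (2 + ((R + 1 : ℕ) : ℝ)) - Real.log (2 + (R : ℝ)) := by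
        have h1 := Real.log_le_sub_one_of_pos (x := (2 + (R : ℝ)) / (2 + ((R + 1 : ℕ) : ℝ)))
          (by positivity)
        rw [Real.log_div (by positivity) (by positivity)] at h1
        have h2 : (2 + (R : ℝ)) / (2 + ((R + 1 : ℕ) : ℝ)) - 1 = -(1 / (3 + (R : ℝ))) := by
          push_cast
          field_simp
          ring
        rw [h2] at h1
        have h3 : 1 / (3 * ((R : ℝ) + 1)) ≤ 1 / (3 + (R : ℝ)) :=
          one_div_le_one_div_of_le (by positivity) (by linarith)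
        linarith
      have hV : 0 < Real.log (2 + ((R + 1 : ℕ) : ℝ)) ^ a :=
        Real.rpow_pos_of_pos (log_pos' (R + 1)) a
      set V := Real.log (2 + ((R + 1 : ℕ) : ℝ)) ^ a with hVd
      have h5 : V / ((R : ℝ) + 1) ≤ C3 * (Real.log (2 + ((R + 1 : ℕ) : ℝ)) ^ (a + 1) -
          Real.log (2 + (R : ℝ)) ^ (a + 1)) := by
        have h6 : V / ((R : ℝ) + 1) ≤ 3 * (V * (Real.log (2 + ((R + 1 : ℕ) : ℝ)) -
            Real.log (2 + (R : ℝ)))) := by
          calc V / ((R : ℝ) + 1) = 3 * (V * (1 / (3 * ((R : ℝ) + 1)))) := by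
                field_simp
            _ ≤ _ := by gcongr
        have h7 : (a + 1) * (3 * (V * (Real.log (2 + ((R + 1 : ℕ) : ℝ)) -
            Real.log (2 + (R : ℝ))))) ≤ (a + 1) * (C3 * (Real.log (2 + ((R + 1 : ℕ) : ℝ)) ^ (a + 1) -
          Real.log (2 + (R : ℝ)) ^ (a + 1))) := by
          have h8 : (a + 1) * (C3 * (Real.log (2 + ((R + 1 : ℕ) : ℝ)) ^ (a + 1) -
              Real.log (2 + (R : ℝ)) ^ (a + 1))) =
              3 * (2 ^ |a| * (Real.log (2 + ((R + 1 : ℕ) : ℝ)) ^ (a + 1) -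
              Real.log (2 + (R : ℝ)) ^ (a + 1))) := by
            rw [hC3]
            field_simp
          rw [h8]
          linarith
        exact h6.trans (le_of_mul_le_mul_left h7 hs)
      have h9 : 8 * ((R : ℝ) + 1) * (C2 * (V / ((R + 1 : ℕ) : ℝ) ^ 2)) =
          8 * C2 * (V / ((R : ℝ) + 1)) := by
        push_cast
        field_simp
      rw [h9] at hring
      have h10 : 8 * C2 * (V / ((R : ℝ) + 1)) ≤ 8 * C2 *
          (C3 * (Real.log (2 + ((R + 1 : ℕ) : ℝ)) ^ (a + 1) - Real.log (2 + (R : ℝ)) ^ (a + 1))) :=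
        mul_le_mul_of_nonneg_left h5 (by positivity)
      have h11 := add_le_add (hring.trans h10) ih
      refine h11.trans (le_of_eq ?_)
      ring
  have hpp : 0 < p ^ p := Real.rpow_pos_of_pos hp0 p
  refine ⟨hc 0 + 3 * C2 * p ^ p + 8 * C2 * C3, ?_, ?_, fun R hR => ⟨?_, ?_⟩⟩
  · have := h0 0
    positivity
  · intro x
    by_cases hx : 1 ≤ rad x
    · have hx0 : (1 : ℝ) ≤ rad x := by exact_mod_cast hx
      have h1 := hinv x hx
      have h2 : 3 * C2 * p ^ p / rad x ≤ 3 * C2 * p ^ p :=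
        div_le_self (by positivity) hx0
      have h3 : 0 ≤ 8 * C2 * C3 := by positivity
      linarith [h0 0]
    · have hx' : x ∈ box 0 := by rw [mem_box]; omega
      rw [box_zero, mem_singleton] at hx'
      subst hx'
      have h3 : 0 ≤ 8 * C2 * C3 := by positivity
      have h4 : 0 ≤ 3 * C2 * p ^ p := by positivity
      linarith
  · have h1 := hsum R
    have hL : 1 ≤ Real.log (2 + R) ^ (a + 1) := Real.one_le_rpow (log_two_add hR) hs.le
    have hl2 : 0 ≤ Real.log 2 ^ (a + 1) := Real.rpow_nonneg (Real.log_nonneg (by norm_num)) _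
    have h3 : 0 ≤ 8 * C2 * C3 := by positivity
    have h4 : 0 ≤ 3 * C2 * p ^ p := by positivity
    set W := Real.log (2 + (R : ℝ)) ^ (a + 1)
    have h5 : 8 * C2 * C3 * (W - Real.log 2 ^ (a + 1)) ≤ 8 * C2 * C3 * W :=
      mul_le_mul_of_nonneg_left (by linarith) h3
    have h6 : hc 0 ≤ hc 0 * W := le_mul_of_one_le_right (h0 0) hL
    have h7 : 0 ≤ 3 * C2 * p ^ p * W := mul_nonneg h4 (by linarith)
    calc _ ≤ hc 0 + 8 * C2 * C3 * (W - Real.log 2 ^ (a + 1)) := h1
      _ ≤ hc 0 * W + 3 * C2 * p ^ p * W + 8 * C2 * C3 * W := by linarith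
      _ = _ := by ring
  · intro y hy
    rw [mem_box, not_le] at hy
    have hR0 : (0 : ℝ) < R := by exact_mod_cast hR
    have hy0 : (R : ℝ) ≤ rad y := by exact_mod_cast hy.le
    have h1 := hinv y (by omega)
    have h4 : 0 ≤ 3 * C2 * p ^ p := by positivity
    have h2 : 3 * C2 * p ^ p / rad y ≤ 3 * C2 * p ^ p / R :=
      div_le_div_of_nonneg_left h4 hR0 hy0
    have h3 : 3 * C2 * p ^ p / R ≤ (hc 0 + 3 * C2 * p ^ p + 8 * C2 * C3) / R := by
      have h5 : 0 ≤ 8 * C2 * C3 := by positivity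
      exact div_le_div_of_nonneg_right (by linarith [h0 0]) hR0.le
    exact h1.trans (h2.trans h3)

end Pool.Agent.P8H75.LP
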